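import Pool.Agent.H89.FR.Main

set_option autoImplicit false

/-! There are `2 ^ 2 ^ ℵ₀` nonprincipal ultrafilters on `ℕ` (Pospíšil); the dimension. -/

namespace Pool.Agent.H89.FR

open Filter Set Cardinal H434R3.Arens N305.FA MeasureTheory

universe u v

/-- the countable set which carries the independent family -/
abbrev XX : Type := Finset ℕ × Finset (Finset ℕ)

open scoped Classical in
/-- the independent family -/
def XA (A : Set ℕ) : Set XX := {x | x.1.filter (· ∈ A) ∈ x.2}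

open scoped Classical in
lemma indep (t : Finset (Set ℕ)) (χ : Set (Set ℕ)) :
    {x : XX | ∀ A ∈ t, (x ∈ XA A ↔ A ∈ χ)}.Infinite := by
  have h1 : ∀ p : Set ℕ × Set ℕ, ∃ n : ℕ, p.1 ≠ p.2 → ¬ (n ∈ p.1 ↔ n ∈ p.2) := by
    intro p
    by_cases h : p.1 = p.2
    · exact ⟨0, fun h' => absurd h h'⟩
    · have : ∃ n, ¬ (n ∈ p.1 ↔ n ∈ p.2) := by
        by_contra hc
        push Not at hc
        exact h (Set.ext hc)
      obtain ⟨n, hn⟩ := this
      exact ⟨n, fun _ => hn⟩
  choose d hd using h1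
  let F : ℕ → Finset ℕ := fun N => (t ×ˢ t).image d ∪ Finset.range N
  let g : ℕ → XX := fun N => (F N, (t.filter (· ∈ χ)).image fun A => (F N).filter (· ∈ A))
  have hg : ∀ N, g N ∈ {x : XX | ∀ A ∈ t, (x ∈ XA A ↔ A ∈ χ)} := by
    intro N A hA
    have e1 : g N ∈ XA A ↔ (F N).filter (· ∈ A) ∈
        (t.filter (· ∈ χ)).image fun A => (F N).filter (· ∈ A) := Iff.rfl
    rw [e1, Finset.mem_image]
    constructor
    · rintro ⟨A', hA', e⟩
      rw [Finset.mem_filter] at hA'
      by_cases h : A' = A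
      · rw [← h]; exact hA'.2
      · exfalso
        have hn := hd (A', A) h
        have hmem : d (A', A) ∈ F N := Finset.mem_union_left _
          (Finset.mem_image_of_mem _ (Finset.mem_product.2 ⟨hA'.1, hA⟩))
        apply hn
        have h2 := Finset.ext_iff.1 e (d (A', A))
        simp only [Finset.mem_filter, hmem, true_and] at h2
        exact h2
    · intro h
      exact ⟨A, Finset.mem_filter.2 ⟨hA, h⟩, rfl⟩
  intro hfin
  obtain ⟨B, hB⟩ := (hfin.image (fun x : XX => x.1.card)).bddAbove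
  have h2 : (F (B + 1)).card ≤ B := hB (mem_image_of_mem _ (hg (B + 1)))
  have h3 : B + 1 ≤ (F (B + 1)).card := by
    calc B + 1 = (Finset.range (B + 1)).card := (Finset.card_range _).symm
      _ ≤ _ := Finset.card_le_card Finset.subset_union_right
  omega

open scoped Classical in
lemma exists_ultra (χ : Set (Set ℕ)) : ∃ U : Ultrafilter XX, (U : Filter XX) ≤ cofinite ∧
    ∀ A : Set ℕ, XA A ∈ U ↔ A ∈ χ := by
  set S : Set (Set XX) := {y | (∃ A, {x | x ∈ XA A ↔ A ∈ χ} = y) ∨ yᶜ.Finite} with hS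
  obtain ⟨U, hU⟩ := Ultrafilter.exists_ultrafilter_of_finite_inter_nonempty S (by
    intro T hT
    have h1 : ∀ y : Set XX, ∃ A : Set ℕ, y ∈ T → ({x | x ∈ XA A ↔ A ∈ χ} = y ∨ yᶜ.Finite) := by
      intro y
      by_cases hy : y ∈ T
      · rcases hT hy with ⟨A, hA⟩ | h
        · exact ⟨A, fun _ => Or.inl hA⟩
        · exact ⟨∅, fun _ => Or.inr h⟩
      · exact ⟨∅, fun h => absurd h hy⟩
    choose a ha using h1
    have h2 := indep (T.image a) χ
    have h3 : (⋃ y ∈ {y ∈ (T : Set (Set XX)) | yᶜ.Finite}, yᶜ).Finite :=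
      (T.finite_toSet.subset (sep_subset _ _)).biUnion fun y hy => hy.2
    obtain ⟨x, hx1, hx2⟩ := (h2.sdiff h3).nonempty
    refine ⟨x, fun y hy => ?_⟩
    have hyT : y ∈ T := hy
    by_cases hf : yᶜ.Finite
    · by_contra hxy
      exact hx2 (mem_biUnion (show y ∈ {y ∈ (T : Set (Set XX)) | yᶜ.Finite} from ⟨hy, hf⟩) hxy)
    · rcases ha y hyT with h | h
      · rw [← h]
        exact hx1 (a y) (Finset.mem_image_of_mem a hyT)
      · exact absurd h hf)
  have hcof : (U : Filter XX) ≤ cofinite := by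
    intro y hy
    exact hU (Or.inr (mem_cofinite.1 hy))
  refine ⟨U, hcof, fun A => ?_⟩
  have h1 : {x | x ∈ XA A ↔ A ∈ χ} ∈ U := hU (Or.inl ⟨A, rfl⟩)
  constructor
  · intro h
    have h2 : XA A ∩ {x | x ∈ XA A ↔ A ∈ χ} ∈ U := inter_mem h h1
    obtain ⟨x, hx1, hx2⟩ := U.nonempty_of_mem h2
    exact hx2.1 hx1
  · intro h
    refine mem_of_superset h1 ?_
    intro x hx
    exact hx.2 h

theorem card_NP : (2 : Cardinal.{0}) ^ (2 : Cardinal.{0}) ^ ℵ₀ ≤ #NP := by
  choose U hU1 hU2 using exists_ultra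
  let e : XX ≃ ℕ := Denumerable.eqv XX
  let φ : Set (Set ℕ) → NP := fun χ => ⟨(U χ).map e, by
    rw [Ultrafilter.coe_map]
    exact (map_mono (hU1 χ)).trans e.injective.tendsto_cofinite⟩
  have hφ : Function.Injective φ := by
    intro χ χ' h
    have h1 : (U χ).map e = (U χ').map e := congrArg Subtype.val h
    have h2 : U χ = U χ' := by
      have h5 := congrArg (Ultrafilter.map e.symm) h1
      simpa [Ultrafilter.map_map] using h5
    ext A
    rw [← hU2 χ A, ← hU2 χ' A, h2]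
  have h3 := Cardinal.mk_le_of_injective hφ
  rwa [Cardinal.mk_set, Cardinal.mk_set, Cardinal.mk_nat] at h3

variable {A : Type v} [NonUnitalNormedRing A] [NormedSpace ℂ A] [IsScalarTower ℂ A A]
  [SMulCommClass ℂ A A]

/-- the span of a family with vanishing products -/
theorem span_of_family (Φ : NP → Bidual A) (hlin : LinearIndependent ℂ Φ)
    (hprod : ∀ (U V : NP) (Ψ : Bidual A), Φ U * Ψ * Φ V = 0) :
    ∃ N : Submodule ℂ (Bidual A), (∀ x ∈ N, InRad x) ∧
      (∀ x ∈ N, ∀ y ∈ N, ∀ Ψ : Bidual A, x * Ψ * y = 0) ∧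
      (2 : Cardinal.{v}) ^ (2 : Cardinal.{v}) ^ (ℵ₀ : Cardinal.{v}) ≤ Module.rank ℂ N := by
  have h1 : ∀ x ∈ Submodule.span ℂ (range Φ), ∀ (V : NP) (Ψ : Bidual A), x * Ψ * Φ V = 0 := by
    intro x hx V Ψ
    induction hx using Submodule.span_induction with
    | mem x h =>
      obtain ⟨U, rfl⟩ := h
      exact hprod U V Ψ
    | zero => rw [zero_mul, zero_mul]
    | add x y _ _ hx hy => rw [add_mul, add_mul, hx, hy, add_zero]
    | smul c x _ hx => rw [smul_mul_assoc, smul_mul_assoc, hx, smul_zero]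
  have h2 : ∀ x ∈ Submodule.span ℂ (range Φ), ∀ y ∈ Submodule.span ℂ (range Φ),
      ∀ Ψ : Bidual A, x * Ψ * y = 0 := by
    intro x hx y hy Ψ
    induction hy using Submodule.span_induction with
    | mem y h =>
      obtain ⟨V, rfl⟩ := h
      exact h1 x hx V Ψ
    | zero => rw [mul_zero]
    | add y z _ _ hy hz => rw [mul_add, hy, hz, add_zero]
    | smul c y _ hy => rw [mul_smul_comm, hy, smul_zero]
  refine ⟨Submodule.span ℂ (range Φ), fun x hx => inRad_of_nil x fun y => h2 x hx x hx y, h2, ?_⟩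
  have h3 := (linearIndependent_span hlin).cardinal_lift_le_rank
  have h4 := Cardinal.lift_le.{v}.2 card_NP
  simp only [Cardinal.lift_power, Cardinal.lift_ofNat, Cardinal.lift_aleph0] at h4
  refine h4.trans ?_
  simpa using h3

/-- the upper bound in the separable case -/
theorem rank_le [TopologicalSpace.SeparableSpace A] (N : Submodule ℂ (Bidual A)) :
    Module.rank ℂ N ≤ (2 : Cardinal.{v}) ^ (2 : Cardinal.{v}) ^ (ℵ₀ : Cardinal.{v}) := by
  obtain ⟨D, hDc, hDd⟩ := TopologicalSpace.exists_countable_dense A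
  have hcC : Cardinal.mk ℂ = 𝔠 := Cardinal.mk_complex
  -- the dual
  have h1 : #(A →L[ℂ] ℂ) ≤ #(D → ULift.{v} ℂ) := by
    refine Cardinal.mk_le_of_injective
      (f := fun (f : A →L[ℂ] ℂ) (x : D) => ULift.up (f x)) ?_
    intro f g h
    have h2 : Set.EqOn f g D := fun x hx => congrArg ULift.down (congrFun h ⟨x, hx⟩)
    exact ContinuousLinearMap.ext fun x =>
      congrFun (Continuous.ext_on hDd f.continuous g.continuous h2) x
  have hD : #D ≤ ℵ₀ := hDc.le_aleph0
  have h2 : #(D → ULift.{v} ℂ) ≤ (𝔠 : Cardinal.{v}) := by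
    rw [← Cardinal.power_def, Cardinal.mk_uLift, hcC, Cardinal.lift_continuum]
    calc (𝔠 : Cardinal.{v}) ^ #D ≤ 𝔠 ^ (ℵ₀ : Cardinal.{v}) :=
          Cardinal.power_le_power_left Cardinal.continuum_ne_zero hD
      _ = 𝔠 := Cardinal.continuum_power_aleph0
  have h3 : #(A →L[ℂ] ℂ) ≤ (𝔠 : Cardinal.{v}) := h1.trans h2
  -- the second dual
  have h4 : #(Bidual A) ≤ #((A →L[ℂ] ℂ) → ULift.{v} ℂ) := by
    refine Cardinal.mk_le_of_injective (f := fun (Φ : Bidual A) (f : A →L[ℂ] ℂ) =>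
      ULift.up (ev Φ f)) ?_
    intro Φ Ψ h
    exact ext_ev fun f => congrArg ULift.down (congrFun h f)
  have h5 : #((A →L[ℂ] ℂ) → ULift.{v} ℂ) ≤ (2 : Cardinal.{v}) ^ (𝔠 : Cardinal.{v}) := by
    rw [← Cardinal.power_def, Cardinal.mk_uLift, hcC, Cardinal.lift_continuum]
    calc (𝔠 : Cardinal.{v}) ^ #(A →L[ℂ] ℂ) ≤ 𝔠 ^ (𝔠 : Cardinal.{v}) :=
          Cardinal.power_le_power_left Cardinal.continuum_ne_zero h3
      _ = 2 ^ (𝔠 : Cardinal.{v}) := Cardinal.power_self_eq Cardinal.aleph0_le_continuum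
  calc Module.rank ℂ N ≤ #N := rank_le_card ℂ N
    _ ≤ #(Bidual A) := Cardinal.mk_subtype_le _
    _ ≤ _ := h4.trans h5
    _ = _ := by rw [Cardinal.two_power_aleph0]

end Pool.Agent.H89.FR
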