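import Pool.Graph.R_pool_sql_team_seeded_63374d34.N305.FA.Hump

set_option autoImplicit false

/-! Gliding hump with arbitrary sets of indices and with errors tending to zero. -/

namespace Pool.Agent.H89.FR

open Filter Topology Finset N305.FA N305.FA.Hump

universe w

/-- the blocks -/
def blk {E : Type*} [AddCommGroup E] (a : ℕ → E) : ℕ → E
  | 0 => a 0
  | l + 1 => a (2 * l + 2) - a (2 * l + 1)

/-- the sum of the blocks with indices in `S` -/
noncomputable def sumS {E : Type*} [AddCommGroup E] (S : Set ℕ) (a : ℕ → E) (K : ℕ) : E :=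
  ∑ l ∈ range (K + 1), S.indicator (blk a) l

section real

variable {a : ℕ → ℝ}

lemma blk_nonneg (ha : Monotone a) (h0 : 0 ≤ a 0) (l : ℕ) : 0 ≤ blk a l := by
  cases l with
  | zero => exact h0
  | succ l => exact sub_nonneg.2 (ha (by omega))

lemma full_le (ha : Monotone a) (K : ℕ) : ∑ l ∈ range (K + 1), blk a l ≤ a (2 * K) := by
  induction K with
  | zero => simp [blk]
  | succ K ih =>
    rw [sum_range_succ]
    have h1 : a (2 * K) ≤ a (2 * K + 1) := ha (by omega)
    have h2 : a (2 * (K + 1)) = a (2 * K + 2) := rfl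
    have h3 : blk a (K + 1) = a (2 * K + 2) - a (2 * K + 1) := rfl
    linarith

lemma tail_le (ha : Monotone a) {l K : ℕ} (hlK : l ≤ K) :
    ∑ j ∈ range (K + 1), blk a j ≤
      ∑ j ∈ range (l + 1), blk a j + (a (2 * K + 1) - a (2 * l + 1)) := by
  induction K, hlK using Nat.le_induction with
  | base => simp
  | succ K hK ih =>
    rw [sum_range_succ]
    have h3 : blk a (K + 1) = a (2 * K + 2) - a (2 * K + 1) := rfl
    have h4 : a (2 * K + 2) ≤ a (2 * (K + 1) + 1) := ha (by omega)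
    linarith

lemma sumS_nonneg (ha : Monotone a) (h0 : 0 ≤ a 0) (S : Set ℕ) (K : ℕ) : 0 ≤ sumS S a K :=
  sum_nonneg fun l _ => Set.indicator_nonneg (fun _ _ => blk_nonneg ha h0 _) _

lemma sumS_ge (ha : Monotone a) (h0 : 0 ≤ a 0) {S : Set ℕ} {l K : ℕ} (hl : l ∈ S) (hlK : l ≤ K) :
    blk a l ≤ sumS S a K := by
  have h1 := single_le_sum (f := fun l => S.indicator (blk a) l)
    (fun j _ => Set.indicator_nonneg (fun _ _ => blk_nonneg ha h0 _) _)
    (mem_range.2 (by omega : l < K + 1))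
  simp only [Set.indicator_of_mem hl] at h1
  exact h1

lemma sumS_le_full (ha : Monotone a) (h0 : 0 ≤ a 0) (S : Set ℕ) (K : ℕ) :
    sumS S a K ≤ ∑ l ∈ range (K + 1), blk a l :=
  sum_le_sum fun l _ => Set.indicator_le_self' (fun _ _ => blk_nonneg ha h0 _) l

lemma sumS_le_of_notMem (ha : Monotone a) (h0 : 0 ≤ a 0) {S : Set ℕ} {l K : ℕ} (hl : l ∉ S)
    (hlK : l ≤ K) : sumS S a K + blk a l ≤ ∑ l ∈ range (K + 1), blk a l := by
  have h1 : blk a l = ∑ j ∈ range (K + 1), (if j = l then blk a l else 0) := by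
    rw [sum_ite_eq' (range (K + 1)) l, if_pos (mem_range.2 (by omega))]
  rw [h1]
  unfold sumS
  rw [← sum_add_distrib]
  refine sum_le_sum fun j _ => ?_
  by_cases hj : j = l
  · subst hj
    rw [if_pos rfl, Set.indicator_of_notMem hl, zero_add]
  · rw [if_neg hj, add_zero]
    exact Set.indicator_le_self' (fun _ _ => blk_nonneg ha h0 _) j

lemma sumS_small (ha : Monotone a) (h0 : 0 ≤ a 0) (h1 : ∀ j, a j ≤ 1) {S : Set ℕ} {l K : ℕ}
    (hl : l ∉ S) (hlK : l ≤ K) {ε : ℝ} (hε : 0 ≤ ε) (hs : ∀ j, j < 2 * l → a j ≤ ε)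
    (hb : 1 - ε ≤ a (2 * l)) : sumS S a K ≤ 2 * ε := by
  have e1 := sumS_le_of_notMem ha h0 hl hlK
  have e2 := tail_le ha hlK
  have e3 := h1 (2 * K + 1)
  have e4 : a (2 * l) ≤ a (2 * l + 1) := ha (by omega)
  rw [sum_range_succ _ l] at e2
  have e5 : ∑ j ∈ range l, blk a j ≤ ε := by
    cases l with
    | zero => simpa using hε
    | succ l => exact (full_le ha l).trans (hs _ (by omega))
  linarith

lemma sumS_odd (ha : Monotone a) (h0 : 0 ≤ a 0) (h1 : ∀ j, a j ≤ 1) (S : Set ℕ) {l K : ℕ}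
    (hlK : l ≤ K) {ε : ℝ} (hs : a (2 * l) ≤ ε)
    (hb : 1 - ε ≤ a (2 * l + 1)) : sumS S a K ≤ 2 * ε := by
  have e1 := sumS_le_full ha h0 S K
  have e2 := tail_le ha hlK
  have e3 := h1 (2 * K + 1)
  have e5 := full_le ha l
  linarith

end real

section op

variable {H : Type w} [NormedAddCommGroup H] [InnerProductSpace ℂ H]

lemma qf_sumS (x : H) (S : Set ℕ) (τ : ℕ → H →L[ℂ] H) (K : ℕ) :
    qf x (sumS S τ K) = sumS S (fun j => qf x (τ j)) K := by
  unfold sumS
  rw [qf_sum]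
  refine sum_congr rfl fun l _ => ?_
  by_cases hl : l ∈ S
  · rw [Set.indicator_of_mem hl, Set.indicator_of_mem hl]
    cases l with
    | zero => rfl
    | succ l => exact qf_sub _ _ _
  · rw [Set.indicator_of_notMem hl, Set.indicator_of_notMem hl]
    simp [qf]

variable {τ : ℕ → H →L[ℂ] H}

lemma blk_pos (h0 : (τ 0).IsPositive) (hm : ∀ j k, j ≤ k → (τ k - τ j).IsPositive) (l : ℕ) :
    (blk τ l).IsPositive := by
  cases l with
  | zero => exact h0
  | succ l => exact hm _ _ (by omega)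

lemma sum_isPositive (f : ℕ → H →L[ℂ] H) (hf : ∀ l, (f l).IsPositive) (K : ℕ) :
    (∑ l ∈ range K, f l).IsPositive := by
  induction K with
  | zero => simp
  | succ K ih => rw [sum_range_succ]; exact ih.add (hf K)

lemma sumS_pos (h0 : (τ 0).IsPositive) (hm : ∀ j k, j ≤ k → (τ k - τ j).IsPositive) (S : Set ℕ)
    (K : ℕ) : (sumS S τ K).IsPositive := by
  refine sum_isPositive _ (fun l => ?_) _
  by_cases hl : l ∈ S
  · rw [Set.indicator_of_mem hl]; exact blk_pos h0 hm l
  · rw [Set.indicator_of_notMem hl]; exact ContinuousLinearMap.isPositive_zero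

lemma full_pos (hm : ∀ j k, j ≤ k → (τ k - τ j).IsPositive) (K : ℕ) :
    (τ (2 * K) - ∑ l ∈ range (K + 1), blk τ l).IsPositive := by
  induction K with
  | zero =>
    have : τ (2 * 0) - ∑ l ∈ range (0 + 1), blk τ l = 0 := by simp [blk]
    rw [this]
    exact ContinuousLinearMap.isPositive_zero
  | succ K ih =>
    have e2 : τ (2 * (K + 1)) - ∑ l ∈ range (K + 1 + 1), blk τ l =
        (τ (2 * K + 1) - τ (2 * K)) + (τ (2 * K) - ∑ l ∈ range (K + 1), blk τ l) := by
      rw [sum_range_succ _ (K + 1)]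
      have h1 : τ (2 * (K + 1)) = τ (2 * K + 2) := rfl
      have h2 : blk τ (K + 1) = τ (2 * K + 2) - τ (2 * K + 1) := rfl
      rw [h1, h2]
      abel
    rw [e2]
    exact (hm _ _ (by omega)).add ih

lemma full_sub_sumS_pos (h0 : (τ 0).IsPositive) (hm : ∀ j k, j ≤ k → (τ k - τ j).IsPositive)
    (S : Set ℕ) (K : ℕ) :
    (∑ l ∈ range (K + 1), blk τ l - sumS S τ K).IsPositive := by
  unfold sumS
  rw [← sum_sub_distrib]
  refine sum_isPositive _ (fun l => ?_) _
  by_cases hl : l ∈ S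
  · rw [Set.indicator_of_mem hl, sub_self]; exact ContinuousLinearMap.isPositive_zero
  · rw [Set.indicator_of_notMem hl, sub_zero]; exact blk_pos h0 hm l

end op

/-- **Gliding hump** for all sets of indices at once. -/
theorem humpS {H : Type w} [NormedAddCommGroup H] [InnerProductSpace ℂ H] [CompleteSpace H]
    {v : ℕ → H} {T : ℕ → H →L[ℂ] H} (hv : ∀ m, ‖v m‖ = 1) (hT : Incr v T)
    (P : Submodule ℂ (H →L[ℂ] H)) (hP : ∀ k, T k ∈ P) :
    ∃ (e o : ℕ → ℕ) (R : Set ℕ → ℕ → H →L[ℂ] H), StrictMono e ∧ StrictMono o ∧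
      (∀ S K, R S K ∈ P) ∧ (∀ S K, ‖R S K‖ ≤ 1) ∧ (∀ S K, (R S K).IsPositive) ∧
      (∀ (S : Set ℕ) (l : ℕ), l ∈ S → ∀ᶠ K in atTop, 1 - 2 / ((l : ℝ) + 1) ≤ qf (v (e l)) (R S K)) ∧
      (∀ (S : Set ℕ) (l : ℕ), l ∉ S → ∀ᶠ K in atTop, qf (v (e l)) (R S K) ≤ 2 / ((l : ℝ) + 1)) ∧
      (∀ (S : Set ℕ) (l : ℕ), ∀ᶠ K in atTop, qf (v (o l)) (R S K) ≤ 2 / ((l : ℝ) + 1)) := by
  -- monotonicity
  have hmono : ∀ j k, j ≤ k → (T k - T j).IsPositive := by
    intro j k hjk
    obtain ⟨d, rfl⟩ := Nat.exists_eq_add_of_le hjk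
    induction d with
    | zero =>
      have : T (j + 0) - T j = 0 := sub_self _
      rw [this]
      exact ContinuousLinearMap.isPositive_zero
    | succ d ih =>
      have e : T (j + (d + 1)) - T j = (T (j + d + 1) - T (j + d)) + (T (j + d) - T j) := by
        have : T (j + (d + 1)) = T (j + d + 1) := rfl
        rw [this]
        abel
      rw [e]
      exact (hT.mono _).add (ih (by omega))
  have umono : ∀ m, Monotone fun k => qf (v m) (T k) := by
    intro m j k hjk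
    have := qf_nonneg (v m) (hmono j k hjk)
    rw [qf_sub] at this
    show qf (v m) (T j) ≤ qf (v m) (T k)
    linarith
  set ε : ℕ → ℝ := fun i => 1 / ((i : ℝ) + 1) with hε
  have hε0 : ∀ i, 0 < ε i := fun i => by simp only [hε]; positivity
  -- the choice
  have hch : ∀ (i : ℕ) (p : ℕ × ℕ), ∃ p' : ℕ × ℕ, p.1 < p'.1 ∧ p.2 < p'.2 ∧
      qf (v p'.1) (T p.2) ≤ ε (i + 1) ∧ 1 - ε (i + 1) ≤ qf (v p'.1) (T p'.2) := by
    intro i p
    obtain ⟨m, hm1, hm2⟩ := (((hT.lim0 p.2).eventually_le_const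
      (hε0 (i + 1))).and (eventually_gt_atTop p.1)).exists
    obtain ⟨k, hk1, hk2⟩ := (((hT.lim1 m).eventually_const_le
      (show 1 - ε (i + 1) < 1 by linarith [hε0 (i + 1)])).and (eventually_gt_atTop p.2)).exists
    exact ⟨(m, k), hm2, hk2, hm1, hk1⟩
  choose nx hnx1 hnx2 hnx3 hnx4 using hch
  obtain ⟨k0, hk0⟩ := ((hT.lim1 0).eventually_const_le
    (show 1 - ε 0 < 1 by linarith [hε0 0])).exists
  let p : ℕ → ℕ × ℕ := fun i => Nat.rec (0, k0) (fun i q => nx i q) i
  have p0 : p 0 = (0, k0) := rfl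
  have ps : ∀ i, p (i + 1) = nx i (p i) := fun _ => rfl
  set mS : ℕ → ℕ := fun i => (p i).1 with hmS
  set kS : ℕ → ℕ := fun i => (p i).2 with hkS
  have sm : StrictMono mS := strictMono_nat_of_lt_succ fun i => by
    show (p i).1 < (p (i + 1)).1
    rw [ps]
    exact hnx1 _ _
  have sk : StrictMono kS := strictMono_nat_of_lt_succ fun i => by
    show (p i).2 < (p (i + 1)).2
    rw [ps]
    exact hnx2 _ _
  have big : ∀ i j, i ≤ j → 1 - ε i ≤ qf (v (mS i)) (T (kS j)) := by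
    intro i j hij
    have h1 : 1 - ε i ≤ qf (v (mS i)) (T (kS i)) := by
      cases i with
      | zero => exact hk0
      | succ i =>
        show 1 - ε (i + 1) ≤ qf (v (p (i + 1)).1) (T (p (i + 1)).2)
        rw [ps]
        exact hnx4 _ _
    exact h1.trans (umono (mS i) (sk.monotone hij))
  have small : ∀ i j, j < i → qf (v (mS i)) (T (kS j)) ≤ ε i := by
    intro i j hij
    obtain ⟨i', rfl⟩ := Nat.exists_eq_succ_of_ne_zero (by omega : i ≠ 0)
    have h1 : qf (v (mS (i' + 1))) (T (kS i')) ≤ ε (i' + 1) := by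
      show qf (v (p (i' + 1)).1) (T (p i').2) ≤ ε (i' + 1)
      rw [ps]
      exact hnx3 _ _
    exact (umono (mS (i' + 1)) (sk.monotone (by omega : j ≤ i'))).trans h1
  set τ : ℕ → H →L[ℂ] H := fun j => T (kS j) with hτ
  have τmono : ∀ j k, j ≤ k → (τ k - τ j).IsPositive := fun j k hjk =>
    hmono _ _ (sk.monotone hjk)
  have τ0 : (τ 0).IsPositive := hT.pos _
  have hRp := fun S K => sumS_pos τ0 τmono S K
  have amono : ∀ i, Monotone fun j => qf (v (mS i)) (τ j) := fun i j k hjk =>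
    umono _ (sk.monotone hjk)
  have a0 : ∀ i, 0 ≤ qf (v (mS i)) (τ 0) := fun i => qf_nonneg _ τ0
  have a1 : ∀ i j, qf (v (mS i)) (τ j) ≤ 1 := by
    intro i j
    have h1 := qf_nonneg (v (mS i)) (hT.le_one (kS j))
    rw [qf_sub, qf_one (hv _)] at h1
    show qf (v (mS i)) (T (kS j)) ≤ 1
    linarith
  have hεl : ∀ l i : ℕ, 2 * l ≤ i → 2 * ε i ≤ 2 / ((l : ℝ) + 1) := by
    intro l i hi
    have h2 : (l : ℝ) + 1 ≤ (i : ℝ) + 1 := by
      have : l ≤ i := by omega
      exact_mod_cast Nat.add_le_add_right this 1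
    simp only [hε]
    rw [mul_one_div]
    exact div_le_div_of_nonneg_left (by norm_num) (by positivity) h2
  refine ⟨fun i => mS (2 * i), fun i => mS (2 * i + 1), fun S => sumS S τ, ?_, ?_, ?_, ?_, hRp,
    ?_, ?_, ?_⟩
  · intro i j hij
    exact @sm (2 * i) (2 * j) (by omega)
  · intro i j hij
    exact @sm (2 * i + 1) (2 * j + 1) (by omega)
  · intro S K
    refine P.sum_mem fun l _ => ?_
    by_cases hl : l ∈ S
    · rw [Set.indicator_of_mem hl]
      cases l with
      | zero => exact hP _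
      | succ l => exact P.sub_mem (hP _) (hP _)
    · rw [Set.indicator_of_notMem hl]; exact P.zero_mem
  · intro S K
    have h1 : (0 : H →L[ℂ] H) ≤ sumS S τ K := (ContinuousLinearMap.nonneg_iff_isPositive _).2 (hRp S K)
    rw [CStarAlgebra.norm_le_one_iff_of_nonneg (sumS S τ K) h1, ContinuousLinearMap.le_def]
    have e : (1 : H →L[ℂ] H) - sumS S τ K = (1 - τ (2 * K)) +
        ((τ (2 * K) - ∑ l ∈ range (K + 1), blk τ l) +
          (∑ l ∈ range (K + 1), blk τ l - sumS S τ K)) := by abel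
    rw [e]
    exact (hT.le_one _).add ((full_pos τmono K).add (full_sub_sumS_pos τ0 τmono S K))
  · intro S l hl
    filter_upwards [eventually_ge_atTop l] with K hK
    rw [qf_sumS]
    refine le_trans ?_ (sumS_ge (amono (2 * l)) (a0 (2 * l)) hl hK)
    have h2 := hεl l (2 * l) le_rfl
    have h3 := big (2 * l) (2 * l) le_rfl
    cases l with
    | zero =>
      have h4 : blk (fun j => qf (v (mS (2 * 0))) (τ j)) 0 = qf (v (mS (2 * 0))) (τ 0) := rfl
      rw [h4]
      have h5 := hε0 (2 * 0)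
      have h7 : 1 - 2 / (((0 : ℕ) : ℝ) + 1) ≤ 1 - ε (2 * 0) := by linarith
      exact h7.trans h3
    | succ l =>
      have h4 : blk (fun j => qf (v (mS (2 * (l + 1)))) (τ j)) (l + 1) =
          qf (v (mS (2 * (l + 1)))) (T (kS (2 * l + 2))) -
            qf (v (mS (2 * (l + 1)))) (T (kS (2 * l + 1))) := rfl
      have h5 := small (2 * (l + 1)) (2 * l + 1) (by omega)
      have h6 : (2 * (l + 1)) = 2 * l + 2 := by ring
      rw [h4]
      rw [h6] at h3 h5 h2 ⊢
      linarith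
  · intro S l hl
    filter_upwards [eventually_ge_atTop l] with K hK
    rw [qf_sumS]
    exact (sumS_small (amono (2 * l)) (a0 _) (a1 _) hl hK (hε0 (2 * l)).le
      (fun j hj => small _ _ hj) (big _ _ le_rfl)).trans (hεl l (2 * l) le_rfl)
  · intro S l
    filter_upwards [eventually_ge_atTop l] with K hK
    rw [qf_sumS]
    have h1 := sumS_odd (a := fun j => qf (v (mS (2 * l + 1))) (τ j)) (amono (2 * l + 1))
      (a0 (2 * l + 1)) (a1 (2 * l + 1)) S hK (ε := ε (2 * l + 1))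
      (small (2 * l + 1) (2 * l) (by omega)) (big (2 * l + 1) (2 * l + 1) le_rfl)
    exact h1.trans (hεl l (2 * l + 1) (by omega))

end Pool.Agent.H89.FR
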