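import Pool.Agent.H89.FR.Hump
import Pool.Graph.R_pool_sql_team_seeded_63374d34.N305.FA.ArensA

set_option autoImplicit false

/-! Limits along ultrafilters in the second dual. -/

namespace Pool.Agent.H89.FR

open Filter Topology Finset H434R3.Arens

universe v

/-- the nonprincipal ultrafilters on `ℕ` -/
abbrev NP : Type := {U : Ultrafilter ℕ // (U : Filter ℕ) ≤ cofinite}

lemma NP.le_atTop (U : NP) : (U.1 : Filter ℕ) ≤ atTop := by
  rw [← Nat.cofinite_eq_atTop]; exact U.2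

variable {A : Type v} [NonUnitalNormedRing A] [NormedSpace ℂ A]

/-- a bounded sequence has a limit in the second dual along every ultrafilter -/
lemma exists_lim (U : Ultrafilter ℕ) (b : ℕ → A) (c : ℝ) (hc : ∀ i, ‖b i‖ ≤ c) :
    ∃ Φ : Bidual A, ∀ f : A →L[ℂ] ℂ,
      Tendsto (fun i => f (b i)) (U : Filter ℕ) (𝓝 (ev Φ f)) := by
  have h1 : ∀ f : A →L[ℂ] ℂ, ∃ l : ℂ,
      Tendsto (fun i => f (b i)) (U : Filter ℕ) (𝓝 l) ∧ ‖l‖ ≤ c * ‖f‖ := by
    intro f
    have h2 : ∀ i, f (b i) ∈ Metric.closedBall (0 : ℂ) (c * ‖f‖) := by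
      intro i
      rw [mem_closedBall_zero_iff]
      calc ‖f (b i)‖ ≤ ‖f‖ * ‖b i‖ := f.le_opNorm _
        _ ≤ ‖f‖ * c := mul_le_mul_of_nonneg_left (hc i) (norm_nonneg _)
        _ = c * ‖f‖ := mul_comm _ _
    obtain ⟨l, hl, hl'⟩ := (isCompact_closedBall (0 : ℂ) (c * ‖f‖)).ultrafilter_le_nhds
      (U.map (fun i => f (b i))) (by
        rw [Ultrafilter.coe_map, le_principal_iff]
        exact Filter.mem_map.2 (Filter.univ_mem' h2))
    exact ⟨l, hl', mem_closedBall_zero_iff.1 hl⟩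
  choose l hl hl' using h1
  refine ⟨(LinearMap.mkContinuous
    { toFun := l
      map_add' := fun f g => tendsto_nhds_unique (hl (f + g)) ((hl f).add (hl g))
      map_smul' := fun r f => tendsto_nhds_unique (hl (r • f)) ((hl f).const_smul r) } c hl' :
        (A →L[ℂ] ℂ) →L[ℂ] ℂ), fun f => hl f⟩

variable [IsScalarTower ℂ A A] [SMulCommClass ℂ A A]

/-- products of limits, nested case -/
lemma prodA (hcomm : ∀ a b : A, a * b = b * a) (w z : ℕ → A)
    (hw : ∀ k, Tendsto (fun i => w k * (w i - z i) - (w i - z i)) atTop (𝓝 0))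
    (hz : ∀ k, Tendsto (fun i => z k * (w i - z i) - (w i - z i)) atTop (𝓝 0))
    (U V : NP) {ΦU ΦV : Bidual A}
    (hU : ∀ f : A →L[ℂ] ℂ, Tendsto (fun i => f (w i - z i)) (U.1 : Filter ℕ) (𝓝 (ev ΦU f)))
    (hV : ∀ f : A →L[ℂ] ℂ, Tendsto (fun i => f (w i - z i)) (V.1 : Filter ℕ) (𝓝 (ev ΦV f)))
    (Ψ : Bidual A) : ΦU * Ψ * ΦV = 0 := by
  have hkey : ∀ (f : A →L[ℂ] ℂ) (x : A),
      Tendsto (fun i => x * (w i - z i) - (w i - z i)) atTop (𝓝 0) →
      hmod (psi ΦV f) x = psi ΦV f := by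
    intro f x hx
    ext c
    rw [hmod_apply, psi_apply', psi_apply']
    have h1 := hV (hmod f (x * c))
    have h2 := hV (hmod f c)
    refine tendsto_nhds_unique h1 ?_
    have h3 : Tendsto (fun i => f (c * (x * (w i - z i) - (w i - z i)))) (V.1 : Filter ℕ) (𝓝 0) := by
      have h4 : Tendsto (fun i => f (c * (x * (w i - z i) - (w i - z i)))) atTop (𝓝 (f (c * 0))) :=
        (f.continuous.tendsto _).comp (hx.const_mul c)
      rw [mul_zero, map_zero] at h4
      exact h4.mono_left V.le_atTop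
    have h7 := h2.add h3
    rw [add_zero] at h7
    refine h7.congr fun i => ?_
    simp only [hmod_apply]
    rw [← map_add, ← mul_add, add_sub_cancel, ← mul_assoc, hcomm c x]
  refine ext_ev fun f => ?_
  rw [H434R3.Arens.mul_def, H434R3.Arens.mul_def, ev_box, ev_box, ev_zero]
  have h1 := hU (psi Ψ (psi ΦV f))
  refine tendsto_nhds_unique h1 ?_
  refine tendsto_const_nhds.congr fun i => ?_
  rw [map_sub, psi_apply', psi_apply', hkey f (w i) (hw i), hkey f (z i) (hz i), sub_self]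

/-- products of limits, annihilated case -/
lemma prodB (b : ℕ → A) (hann : ∀ a, Tendsto (fun i => a * b i) atTop (𝓝 0)) (V : NP)
    {ΦV : Bidual A} (hV : ∀ f : A →L[ℂ] ℂ, Tendsto (fun i => f (b i)) (V.1 : Filter ℕ) (𝓝 (ev ΦV f)))
    (Φ : Bidual A) : Φ * ΦV = 0 := by
  have h0 : ∀ f : A →L[ℂ] ℂ, psi ΦV f = 0 := by
    intro f
    ext a
    rw [psi_apply', zero_apply]
    have h1 : Tendsto (fun i => hmod f a (b i)) (V.1 : Filter ℕ) (𝓝 0) := by
      have h2 : Tendsto (fun i => f (a * b i)) atTop (𝓝 (f 0)) :=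
        (f.continuous.tendsto 0).comp (hann a)
      rw [map_zero] at h2
      exact h2.mono_left V.le_atTop
    exact tendsto_nhds_unique (hV (hmod f a)) h1
  apply ext_ev
  intro f
  rw [H434R3.Arens.mul_def, ev_box, h0, ev_map_zero, ev_zero]

/-- a finite sum is evaluated termwise -/
lemma ev_sum {ι : Type*} (s : Finset ι) (g : ι → Bidual A) (f : A →L[ℂ] ℂ) :
    ev (∑ i ∈ s, g i) f = ∑ i ∈ s, ev (g i) f := by
  classical
  induction s using Finset.induction_on with
  | empty => simp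
  | insert a s ha ih => rw [sum_insert ha, sum_insert ha, ev_add, ih]

/-- linear independence from separating functionals -/
lemma linInd (Φ : NP → Bidual A) (F : Set ℕ → A →L[ℂ] ℂ)
    (h1 : ∀ (U : NP) (S : Set ℕ), S ∈ U.1 → ev (Φ U) (F S) = 1)
    (h0 : ∀ (U : NP) (S : Set ℕ), S ∉ U.1 → ev (Φ U) (F S) = 0) : LinearIndependent ℂ Φ := by
  classical
  rw [linearIndependent_iff']
  intro s g hg U₀ hU₀
  have hex : ∀ U : NP, U ≠ U₀ → ∃ S : Set ℕ, S ∈ U₀.1 ∧ S ∉ U.1 := by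
    intro U hU
    by_contra hcon
    push Not at hcon
    have h2 : (U.1 : Filter ℕ) ≤ (U₀.1 : Filter ℕ) := fun S hS => hcon S hS
    exact hU (Subtype.ext (Ultrafilter.coe_le_coe.1 h2))
  choose! T hT1 hT2 using hex
  set S : Set ℕ := ⋂ U ∈ s.erase U₀, T U with hS
  have hSU₀ : S ∈ U₀.1 := by
    have : S ∈ (U₀.1 : Filter ℕ) := by
      rw [hS, Filter.biInter_finset_mem]
      intro U hU
      exact hT1 U (Finset.ne_of_mem_erase hU)
    exact this
  have hSU : ∀ U ∈ s, U ≠ U₀ → S ∉ U.1 := by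
    intro U hU hne hSm
    refine hT2 U hne ?_
    refine Filter.mem_of_superset (f := (U.1 : Filter ℕ)) hSm ?_
    exact Set.biInter_subset_of_mem (Finset.mem_coe.2 (Finset.mem_erase.2 ⟨hne, hU⟩))
  have h2 : ev (∑ U ∈ s, g U • Φ U) (F S) = 0 := by rw [hg, ev_zero]
  rw [ev_sum, Finset.sum_eq_single U₀] at h2
  · rw [ev_smul, h1 U₀ S hSU₀, mul_one] at h2
    exact h2
  · intro U hU hne
    rw [ev_smul, h0 U S (hSU U hU hne), mul_zero]
  · intro h
    exact absurd hU₀ h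

end Pool.Agent.H89.FR
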