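import Pool.Agent.H89.FR.Lim
import Pool.Graph.R_pool_sql_team_seeded_63374d34.Results.MP_129c4a_an.RadicalBidual

set_option autoImplicit false
set_option linter.unusedSectionVars false

/-! The radical of the second dual of the Fourier algebra is huge. -/

namespace Pool.Agent.H89.FR

open Filter Topology H434R3.Arens N305.FA N305.FA.Hump MeasureTheory

universe u v w

section abstract

variable {G : Type u} [Group G] {H : Type u} [NormedAddCommGroup H] [InnerProductSpace ℂ H]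
  [CompleteSpace H] {L : URep G H} {A : Type v} [NonUnitalNormedRing A] [NormedSpace ℂ A]

open scoped Classical in
/-- the functionals given by the gliding hump -/
lemma exists_functional (C : CoefAlg L A) {v : ℕ → H} (hv : ∀ m, ‖v m‖ = 1)
    {e o : ℕ → ℕ} {R : ℕ → H →L[ℂ] H} (hRV : ∀ K, R K ∈ VN L) (hR1 : ∀ K, ‖R K‖ ≤ 1)
    (hRp : ∀ K, (R K).IsPositive) {S : Set ℕ}
    (hS : ∀ l : ℕ, l ∈ S → ∀ᶠ K in atTop, 1 - 2 / ((l : ℝ) + 1) ≤ qf (v (e l)) (R K))
    (hS' : ∀ l : ℕ, l ∉ S → ∀ᶠ K in atTop, qf (v (e l)) (R K) ≤ 2 / ((l : ℝ) + 1))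
    (ho : ∀ l : ℕ, ∀ᶠ K in atTop, qf (v (o l)) (R K) ≤ 2 / ((l : ℝ) + 1)) :
    ∃ F : A →L[ℂ] ℂ, ∀ l : ℕ,
      ‖F (C.cf (v (e l)) (v (e l)) - C.cf (v (o l)) (v (o l))) - (if l ∈ S then 1 else 0)‖ ≤
        4 / ((l : ℝ) + 1) := by
  classical
  obtain ⟨F, hF⟩ := funct G H L A C R hRV hR1
  have him : ∀ m, (F (C.cf (v m) (v m))).im = 0 := by
    intro m
    have e1 : C.cf (Complex.I • v m) (v m) = Complex.I • C.cf (v m) (v m) := by
      apply C.val_inj
      funext s
      rw [C.val_cf, C.val_smul, C.val_cf, map_smul, inner_smul_right]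
    have e2 : ∀ K, (inner ℂ (v m) (R K (Complex.I • v m))).re = 0 := by
      intro K
      rw [map_smul, inner_smul_right, Complex.I_mul_re]
      have h1 := (hRp K).inner_nonneg_right (v m)
      have h2 : (inner ℂ (v m) (R K (v m))).im = 0 := (Complex.le_def.1 h1).2.symm
      rw [h2, neg_zero]
    have e3 := (hF (Complex.I • v m) (v m) 0).1 (Eventually.of_forall fun K => (e2 K).ge)
    have e4 := (hF (Complex.I • v m) (v m) 0).2 (Eventually.of_forall fun K => (e2 K).le)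
    rw [e1, map_smul, smul_eq_mul, Complex.I_mul_re] at e3 e4
    linarith
  have hge0 : ∀ m, 0 ≤ (F (C.cf (v m) (v m))).re := fun m =>
    (hF (v m) (v m) 0).1 (Eventually.of_forall fun K => (hRp K).re_inner_nonneg_right (v m))
  have hle1 : ∀ m, (F (C.cf (v m) (v m))).re ≤ 1 := by
    intro m
    refine (hF (v m) (v m) 1).2 (Eventually.of_forall fun K => ?_)
    calc (inner ℂ (v m) (R K (v m))).re ≤ ‖inner ℂ (v m) (R K (v m))‖ := Complex.re_le_norm _
      _ ≤ ‖v m‖ * ‖R K (v m)‖ := norm_inner_le_norm _ _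
      _ ≤ 1 * (1 * 1) := by
          have h1 : ‖R K (v m)‖ ≤ 1 * 1 := by
            refine ((R K).le_opNorm _).trans ?_
            rw [hv]
            gcongr
            exact hR1 K
          rw [hv]
          gcongr
      _ = 1 := by norm_num
  refine ⟨F, fun l => ?_⟩
  have hol := (hF (v (o l)) (v (o l)) (2 / ((l : ℝ) + 1))).2 (ho l)
  have ho0 := hge0 (o l)
  have he0 := hge0 (e l)
  have he1 := hle1 (e l)
  have hl0 : (0:ℝ) ≤ 2 / ((l : ℝ) + 1) := by positivity
  have h4 : (4:ℝ) / ((l : ℝ) + 1) = 2 / ((l : ℝ) + 1) + 2 / ((l : ℝ) + 1) := by ring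
  set X := F (C.cf (v (e l)) (v (e l)) - C.cf (v (o l)) (v (o l))) - (if l ∈ S then 1 else 0)
    with hX
  have hXim : X.im = 0 := by
    rw [hX, map_sub, Complex.sub_im, Complex.sub_im, him, him]
    split_ifs <;> simp
  have hXre : ‖X‖ = |X.re| := by
    have : X = (X.re : ℂ) := by
      apply Complex.ext <;> simp [hXim]
    rw [this, Complex.norm_real, Real.norm_eq_abs, Complex.ofReal_re]
  rw [hXre, abs_le]
  by_cases hl : l ∈ S
  · have hel := (hF (v (e l)) (v (e l)) (1 - 2 / ((l : ℝ) + 1))).1 (hS l hl)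
    have : X.re = (F (C.cf (v (e l)) (v (e l)))).re - (F (C.cf (v (o l)) (v (o l)))).re - 1 := by
      rw [hX, map_sub, if_pos hl]
      simp
    rw [this, h4]
    constructor <;> linarith
  · have hel := (hF (v (e l)) (v (e l)) (2 / ((l : ℝ) + 1))).2 (hS' l hl)
    have : X.re = (F (C.cf (v (e l)) (v (e l)))).re - (F (C.cf (v (o l)) (v (o l)))).re := by
      rw [hX, map_sub, if_neg hl]
      simp
    rw [this, h4]
    constructor <;> linarith

/-- limits of the differences along ultrafilters are linearly independent -/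
lemma exists_family [IsScalarTower ℂ A A] [SMulCommClass ℂ A A] (C : CoefAlg L A) {v : ℕ → H}
    {T : ℕ → H →L[ℂ] H} (hv : ∀ m, ‖v m‖ = 1)
    (hT : Incr v T) (hTV : ∀ k, T k ∈ VN L) :
    ∃ (e o : ℕ → ℕ) (Φ : NP → Bidual A), StrictMono e ∧ StrictMono o ∧ LinearIndependent ℂ Φ ∧
      ∀ (U : NP) (f : A →L[ℂ] ℂ),
        Tendsto (fun i => f (C.cf (v (e i)) (v (e i)) - C.cf (v (o i)) (v (o i))))
          (U.1 : Filter ℕ) (𝓝 (ev (Φ U) f)) := by
  classical
  obtain ⟨e, o, R, he, ho, hRV, hR1, hRp, h1, h2, h3⟩ := humpS hv hT (VN L) hTV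
  have hn : ∀ m, ‖C.cf (v m) (v m)‖ ≤ 1 := by
    intro m
    have := C.norm_cf (v m) (v m)
    rw [hv] at this; simpa using this
  have hb : ∀ i, ‖C.cf (v (e i)) (v (e i)) - C.cf (v (o i)) (v (o i))‖ ≤ 2 := by
    intro i
    calc ‖C.cf (v (e i)) (v (e i)) - C.cf (v (o i)) (v (o i))‖
        ≤ ‖C.cf (v (e i)) (v (e i))‖ + ‖C.cf (v (o i)) (v (o i))‖ := norm_sub_le _ _
      _ ≤ 2 := by linarith [hn (e i), hn (o i)]
  have hΦ : ∀ U : NP, ∃ Φ : Bidual A, ∀ f : A →L[ℂ] ℂ,
      Tendsto (fun i => f (C.cf (v (e i)) (v (e i)) - C.cf (v (o i)) (v (o i))))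
          (U.1 : Filter ℕ) (𝓝 (ev Φ f)) := fun U => exists_lim U.1 _ 2 hb
  choose Φ hΦ' using hΦ
  have hF : ∀ S : Set ℕ, ∃ F : A →L[ℂ] ℂ, ∀ l : ℕ,
      ‖F (C.cf (v (e l)) (v (e l)) - C.cf (v (o l)) (v (o l))) - (if l ∈ S then 1 else 0)‖ ≤
        4 / ((l : ℝ) + 1) := fun S =>
    exists_functional C hv (hRV S) (hR1 S) (hRp S) (h1 S) (h2 S) (h3 S)
  choose F hF' using hF
  have hlim : ∀ S (U : NP), Tendsto (fun l : ℕ =>
      F S (C.cf (v (e l)) (v (e l)) - C.cf (v (o l)) (v (o l))) - (if l ∈ S then 1 else 0))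
      (U.1 : Filter ℕ) (𝓝 0) := by
    intro S U
    have h4 : Tendsto (fun l : ℕ => (4:ℝ) / ((l : ℝ) + 1)) atTop (𝓝 0) := by
      have h5 := (tendsto_one_div_add_atTop_nhds_zero_nat (𝕜 := ℝ)).const_mul 4
      rw [mul_zero] at h5
      refine h5.congr fun l => ?_
      ring
    exact (squeeze_zero_norm (hF' S) h4).mono_left U.le_atTop
  refine ⟨e, o, Φ, he, ho, linInd Φ F ?_ ?_, hΦ'⟩
  · intro U S hS
    have h5 := (hΦ' U (F S)).sub (hlim S U)
    rw [sub_zero] at h5
    refine tendsto_nhds_unique h5 (tendsto_const_nhds.congr' ?_)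
    have hS' : S ∈ (U.1 : Filter ℕ) := hS
    filter_upwards [hS'] with l hl
    rw [if_pos hl]
    ring
  · intro U S hS
    have h5 := (hΦ' U (F S)).sub (hlim S U)
    rw [sub_zero] at h5
    refine tendsto_nhds_unique h5 (tendsto_const_nhds.congr' ?_)
    have hS' : Sᶜ ∈ (U.1 : Filter ℕ) := Ultrafilter.compl_mem_iff_notMem.2 hS
    filter_upwards [hS'] with l hl
    rw [if_neg hl]
    ring

end abstract

theorem nondiscreteS (G : Type u) [Group G] [TopologicalSpace G] [IsTopologicalGroup G]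
    [LocallyCompactSpace G] [T2Space G] [MeasurableSpace G] [BorelSpace G]
    (hG : ¬ DiscreteTopology G)
    (A : Type v) [NonUnitalNormedRing A] [NormedSpace ℂ A] [IsScalarTower ℂ A A]
    [SMulCommClass ℂ A A] [CompleteSpace A] (M : FourierAlg G A) :
    ∃ Φ : NP → Bidual A, LinearIndependent ℂ Φ ∧ ∀ (U V : NP) (Ψ : Bidual A),
      Φ U * Ψ * Φ V = 0 := by
  obtain ⟨C, hC⟩ := model.{u, v} G A M
  obtain ⟨D⟩ := (seq small) G hG
  have hv : ∀ m, ‖D.v m‖ = 1 := fun m => norm_cvec _ _ _ (D.int m)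
  obtain ⟨T, hTV, hT⟩ := (incr (bsub vnalg) dir) G (HG G) (regRep G) D.v hv
    (fun N ε hε => (opB (opA rcont) rcont vnalg) G D N ε hε)
  obtain ⟨e, o, Φ, he, ho, hlin, hΦ⟩ := exists_family C hv hT hTV
  have hp := (pseq (prod (prodI wcontT))) G A C D
  have key : ∀ k, Tendsto (fun i => C.cf (D.v k) (D.v k) *
      (C.cf (D.v (e i)) (D.v (e i)) - C.cf (D.v (o i)) (D.v (o i))) -
      (C.cf (D.v (e i)) (D.v (e i)) - C.cf (D.v (o i)) (D.v (o i)))) atTop (𝓝 0) := by
    intro k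
    have h1 := ((hp k).comp he.tendsto_atTop).sub ((hp k).comp ho.tendsto_atTop)
    rw [sub_zero] at h1
    refine h1.congr fun i => ?_
    simp only [Function.comp, mul_sub]
    abel
  refine ⟨Φ, hlin, fun U V Ψ => ?_⟩
  exact prodA (comm_of C) (fun i => C.cf (D.v (e i)) (D.v (e i)))
    (fun i => C.cf (D.v (o i)) (D.v (o i))) (fun k => key (e k)) (fun k => key (o k)) U V
    (hΦ U) (hΦ V) Ψ

theorem discreteS (G : Type u) [Group G] [TopologicalSpace G] [IsTopologicalGroup G]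
    [LocallyCompactSpace G] [T2Space G] [MeasurableSpace G] [BorelSpace G] [Infinite G]
    [DiscreteTopology G]
    (A : Type v) [NonUnitalNormedRing A] [NormedSpace ℂ A] [IsScalarTower ℂ A A]
    [SMulCommClass ℂ A A] (M : FourierAlg G A) :
    ∃ Φ : NP → Bidual A, LinearIndependent ℂ Φ ∧ ∀ (U V : NP) (Ψ : Bidual A),
      Φ U * Ψ * Φ V = 0 := by
  obtain ⟨C, hC⟩ := modd.{u, v} G A M
  obtain ⟨D⟩ := pfa G
  obtain ⟨v, hv, hav, hpt⟩ := dseq G D.a D.pos D.norm
  have hI : Incr v (fun k => 1 - D.a ^ k) :=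
    tpow (HD G) D.a v D.pos D.norm.le (pfb G D) hv hav
  obtain ⟨h1, h2, h3, h4⟩ := vnalg G (HD G) (dRep G)
  have hone : (1 : HD G →L[ℂ] HD G) ∈ VN (dRep G) := by
    have := h1 1
    rwa [(dRep G).one] at this
  have hpow : ∀ k, D.a ^ k ∈ VN (dRep G) := by
    intro k
    induction k with
    | zero => simpa using hone
    | succ k ih => rw [pow_succ]; exact h2 _ _ ih D.vn
  obtain ⟨e, o, Φ, he, ho, hlin, hΦ⟩ := exists_family C hv hI
    (fun k => (VN (dRep G)).sub_mem hone (hpow k))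
  have hn : ∀ m, ‖C.cf (v m) (v m)‖ ≤ 1 := by
    intro m
    have := C.norm_cf (v m) (v m)
    rw [hv] at this; simpa using this
  have hann : ∀ a : A, Tendsto (fun i => a * (C.cf (v (e i)) (v (e i)) - C.cf (v (o i)) (v (o i))))
      atTop (𝓝 0) := by
    intro a
    refine dprod G A C _ 2 ?_ ?_ a
    · intro i
      calc ‖C.cf (v (e i)) (v (e i)) - C.cf (v (o i)) (v (o i))‖
          ≤ ‖C.cf (v (e i)) (v (e i))‖ + ‖C.cf (v (o i)) (v (o i))‖ := norm_sub_le _ _
        _ ≤ 2 := by linarith [hn (e i), hn (o i)]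
    · intro s
      obtain ⟨c, hc⟩ := hpt s
      have e1 : ∀ i, C.val (C.cf (v (e i)) (v (e i)) - C.cf (v (o i)) (v (o i))) s
          = inner ℂ (v (e i)) (dlam s (v (e i))) - inner ℂ (v (o i)) (dlam s (v (o i))) := by
        intro i
        have : C.cf (v (e i)) (v (e i)) - C.cf (v (o i)) (v (o i))
            = C.cf (v (e i)) (v (e i)) + (-1 : ℂ) • C.cf (v (o i)) (v (o i)) := by
          rw [neg_one_smul, sub_eq_add_neg]
        rw [this, C.val_add, C.val_smul, C.val_cf, C.val_cf]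
        change _ + -1 * _ = _
        ring_nf
        rfl
      have e2 := (hc.comp he.tendsto_atTop).sub (hc.comp ho.tendsto_atTop)
      rw [sub_self] at e2
      refine e2.congr (fun i => ?_)
      rw [e1 i]; rfl
  exact ⟨Φ, hlin, fun U V Ψ => prodB _ hann V (hΦ V) _⟩

/-- **The radical of `A(G)''` is huge.** -/
theorem huge (G : Type u) [Group G] [TopologicalSpace G] [IsTopologicalGroup G]
    [LocallyCompactSpace G] [T2Space G] [MeasurableSpace G] [BorelSpace G] [Infinite G]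
    (A : Type v) [NonUnitalNormedRing A] [NormedSpace ℂ A] [IsScalarTower ℂ A A]
    [SMulCommClass ℂ A A] [CompleteSpace A] (M : FourierAlg G A) :
    ∃ Φ : NP → Bidual A, LinearIndependent ℂ Φ ∧ ∀ (U V : NP) (Ψ : Bidual A),
      Φ U * Ψ * Φ V = 0 := by
  by_cases hG : DiscreteTopology G
  · exact discreteS G A M
  · exact nondiscreteS G hG A M

end Pool.Agent.H89.FR
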