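import Pool.Agent.H89.FR.Card

set_option autoImplicit false

/-! If `G` is second countable, then `A(G)` is separable. -/

namespace Pool.Agent.H89.FR

open Filter Topology H434R3.Arens N305.FA N305.FA.Hump MeasureTheory

universe u v

section

variable {G : Type u} [Group G] {H : Type u} [NormedAddCommGroup H] [InnerProductSpace ℂ H]
  {L : URep G H} {A : Type v} [NonUnitalNormedRing A] [NormedSpace ℂ A]

lemma cf_sub (C : CoefAlg L A) (ξ η ξ' η' : H) :
    C.cf ξ η = C.cf (ξ - ξ') η + C.cf ξ' (η - η') + C.cf ξ' η' := by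
  apply C.val_inj
  funext s
  rw [C.val_add, C.val_add, C.val_cf, C.val_cf, C.val_cf, C.val_cf, map_sub, inner_sub_right,
    inner_sub_left]
  ring

lemma cf_cont (C : CoefAlg L A) : Continuous fun p : H × H => C.cf p.1 p.2 := by
  rw [continuous_iff_continuousAt]
  rintro ⟨ξ', η'⟩
  rw [ContinuousAt, tendsto_iff_norm_sub_tendsto_zero]
  have h1 : Tendsto (fun p : H × H => ‖p.1 - ξ'‖ * ‖p.2‖ + ‖ξ'‖ * ‖p.2 - η'‖)
      (𝓝 (ξ', η')) (𝓝 0) := by
    have h2 : Continuous fun p : H × H => ‖p.1 - ξ'‖ * ‖p.2‖ + ‖ξ'‖ * ‖p.2 - η'‖ := by fun_prop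
    have h3 := h2.tendsto (ξ', η')
    simpa using h3
  refine squeeze_zero (fun _ => norm_nonneg _) (fun p => ?_) h1
  have h4 : C.cf p.1 p.2 - C.cf ξ' η' = C.cf (p.1 - ξ') p.2 + C.cf ξ' (p.2 - η') := by
    rw [cf_sub C p.1 p.2 ξ' η']
    abel
  show ‖C.cf p.1 p.2 - C.cf ξ' η'‖ ≤ _
  rw [h4]
  exact (norm_add_le _ _).trans (add_le_add (C.norm_cf _ _) (C.norm_cf _ _))

lemma sep_of_cf [TopologicalSpace.SeparableSpace H] (C : CoefAlg L A) :
    TopologicalSpace.SeparableSpace A := by
  have hsurj : Function.Surjective fun p : H × H => C.cf p.1 p.2 := by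
    intro a
    obtain ⟨ξ, η, h, -⟩ := C.approx a 1 one_pos
    exact ⟨(ξ, η), h.symm⟩
  exact hsurj.denseRange.separableSpace (cf_cont C)

end

/-- `A(G)` is separable if `G` is second countable. -/
theorem separable_of_secondCountable (G : Type u) [Group G] [TopologicalSpace G]
    [IsTopologicalGroup G] [LocallyCompactSpace G] [T2Space G] [MeasurableSpace G] [BorelSpace G]
    [SecondCountableTopology G] (A : Type v) [NonUnitalNormedRing A] [NormedSpace ℂ A]
    [IsScalarTower ℂ A A] [SMulCommClass ℂ A A] [CompleteSpace A] (M : FourierAlg G A) :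
    TopologicalSpace.SeparableSpace A := by
  have : Fact ((2 : ENNReal) ≠ ⊤) := ⟨by norm_num⟩
  have : TopologicalSpace.SeparableSpace (HG G) := inferInstance
  obtain ⟨C, hC⟩ := model.{u, v} G A M
  exact sep_of_cf C

end Pool.Agent.H89.FR
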